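import Pool.Agent.Helper21.WALL.Wall

/-!
# MP_be0fb5: rotate until the wall, the plane of the cut is behind the point of the chain

The same as in `Wall`, but the points `P j`, `j ≠ k`, of the chain may lie strictly behind the facets and the plane
`∑ c j L j = h` may lie strictly before the point `P k`.
-/

set_option autoImplicit false

namespace Pool.Agent.Helper21.WALL

open Matrix Pool.Agent.Helper12.LW
open Pool.Agent.Helper84.FL (Superbase WidthLe)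
open Pool.Agent.Helper38.TET (OChain)

/-- a simplex around `K`, the chain of an obtuse superbase, the points `j ≠ k` behind the facets `j`, the point `P k`
inside and behind the plane of the cut -/
structure WState (K : Set (Fin 3 → ℝ)) (f P : Fin 4 → Fin 3 → ℤ) (k : Fin 4) (g : Fin 4 → Fin 3 → ℝ)
    (b c : Fin 4 → ℝ) (h : ℝ) : Prop where
  super : Superbase f
  step : ∀ l, P (l + 1) = P l + f l
  sum_g : ∑ j, g j = 0
  sum_b : ∑ j, b j = 1
  span : ∀ m : Fin 3 → ℝ, ∃ a : Fin 4 → ℝ, ∑ j, a j • g j = m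
  sub : ∀ j, ∀ x ∈ K, g j ⬝ᵥ x ≤ b j
  out : ∀ j, j ≠ k → b j ≤ g j ⬝ᵥ toR (P j)
  ins : ∀ j, j ≠ k → g j ⬝ᵥ toR (P k) ≤ b j
  inner : g k ⬝ᵥ toR (P k) < b k
  c_zero : c k = 0
  c_nonneg : ∀ j, 0 ≤ c j
  h_pos : 0 < h
  cut : ∀ x ∈ K, ∑ j, c j * (b j - g j ⬝ᵥ x) ≤ h
  above : h ≤ ∑ j, c j * (b j - g j ⬝ᵥ toR (P k))
  obt : ∀ l m, l ≠ m → ∑ j, (g j ⬝ᵥ toR (f l)) * (g j ⬝ᵥ toR (f m)) ≤ 0

/-- the vectors of a spanning family of four with sum zero do not vanish -/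
theorem g_ne_zero {g : Fin 4 → Fin 3 → ℝ} (hg : ∑ j, g j = 0)
    (hspan : ∀ m : Fin 3 → ℝ, ∃ a : Fin 4 → ℝ, ∑ j, a j • g j = m) (j : Fin 4) : g j ≠ 0 := by
  intro hj
  have h1 : LinearMap.range (Fintype.linearCombination ℝ g) = ⊤ := by
    rw [LinearMap.range_eq_top]
    intro m
    obtain ⟨a, ha⟩ := hspan m
    exact ⟨a, by rw [Fintype.linearCombination_apply]; exact ha⟩
  have h2 := LinearMap.finrank_range_add_finrank_ker (Fintype.linearCombination ℝ g)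
  rw [h1, finrank_top, Module.finrank_fin_fun, Module.finrank_fin_fun] at h2
  have h3 : Module.finrank ℝ (LinearMap.ker (Fintype.linearCombination ℝ g)) = 1 := by omega
  have hone : (fun _ => 1 : Fin 4 → ℝ) ∈ LinearMap.ker (Fintype.linearCombination ℝ g) := by
    rw [LinearMap.mem_ker, Fintype.linearCombination_apply]
    simp [hg]
  have hsg : (Pi.single j 1 : Fin 4 → ℝ) ∈ LinearMap.ker (Fintype.linearCombination ℝ g) := by
    rw [LinearMap.mem_ker, Fintype.linearCombination_apply, Finset.sum_eq_single j]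
    · rw [Pi.single_eq_same, one_smul, hj]
    · intro i _ hi
      rw [Pi.single_eq_of_ne hi, zero_smul]
    · intro h
      exact absurd (Finset.mem_univ j) h
  obtain ⟨e, he⟩ := (finrank_eq_one_iff_of_nonzero' (⟨fun _ => 1, hone⟩ :
    LinearMap.ker (Fintype.linearCombination ℝ g)) (by
      intro h
      have := congrFun (congrArg Subtype.val h) 0
      simp at this)).1 h3 ⟨Pi.single j 1, hsg⟩
  have h4 := congrFun (congrArg Subtype.val he) j
  have h5 := congrFun (congrArg Subtype.val he) (j + 1)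
  have h6 : j + 1 ≠ j := by
    intro h
    have : (1 : Fin 4) = 0 := by
      calc (1 : Fin 4) = (j + 1) - j := by abel
        _ = 0 := by rw [h, sub_self]
    exact absurd this (by decide)
  simp at h4
  simp [h6] at h5
  rw [h4] at h5
  exact one_ne_zero h5

/-- an affine function which is nonnegative on `K` is positive inside -/
theorem pos_of_interior {K : Set (Fin 3 → ℝ)} {u : Fin 3 → ℝ} {β : ℝ} (hu : u ≠ 0) (hK : ∀ x ∈ K, u ⬝ᵥ x ≤ β)
    {x0 : Fin 3 → ℝ} (hx0 : x0 ∈ interior K) : 0 < β - u ⬝ᵥ x0 := by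
  have h2 : Filter.Tendsto (fun t : ℝ => x0 + t • u) (nhdsWithin 0 (Set.Ioi 0)) (nhds x0) := by
    have h3 : Continuous fun t : ℝ => x0 + t • u := by fun_prop
    have h4 := h3.tendsto 0
    simp only [zero_smul, add_zero] at h4
    exact h4.mono_left nhdsWithin_le_nhds
  have h3 := h2.eventually (mem_interior_iff_mem_nhds.1 hx0)
  obtain ⟨t, ht, ht0⟩ := (h3.and self_mem_nhdsWithin).exists
  have h4 := hK _ ht
  rw [dotProduct_add, dotProduct_smul, smul_eq_mul] at h4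
  have h5 : 0 < u ⬝ᵥ u := by
    have h6 : 0 ≤ u ⬝ᵥ u := Finset.sum_nonneg fun a _ => mul_self_nonneg _
    exact lt_of_le_of_ne h6 fun h => hu (dotProduct_self_eq_zero.1 h.symm)
  have h6 := mul_pos (show (0 : ℝ) < t from ht0) h5
  linarith

/-- Theorem A for a chain with all points behind the facets -/
theorem thmA_out (thmA : ∀ (K : Set (Fin 3 → ℝ)) (f P : Fin 4 → Fin 3 → ℤ) (g : Fin 4 → Fin 3 → ℝ), LFree K →
      OChain K f P g → (∀ m : Fin 3 → ℝ, ∃ a : Fin 4 → ℝ, ∑ j, a j • g j = m) → WidthLe K (2 + Real.sqrt 2))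
    {K : Set (Fin 3 → ℝ)} {f P : Fin 4 → Fin 3 → ℤ} {g : Fin 4 → Fin 3 → ℝ} {b : Fin 4 → ℝ} (hK : LFree K)
    (super : Superbase f) (step : ∀ l, P (l + 1) = P l + f l) (sum_g : ∑ j, g j = 0) (sum_b : ∑ j, b j = 1)
    (span : ∀ m : Fin 3 → ℝ, ∃ a : Fin 4 → ℝ, ∑ j, a j • g j = m) (sub : ∀ j, ∀ x ∈ K, g j ⬝ᵥ x ≤ b j)
    (out : ∀ j, b j ≤ g j ⬝ᵥ toR (P j))
    (obt : ∀ l m, l ≠ m → ∑ j, (g j ⬝ᵥ toR (f l)) * (g j ⬝ᵥ toR (f m)) ≤ 0) :
    WidthLe K (2 + Real.sqrt 2) := by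
  obtain ⟨ν, hν⟩ : ∃ ν : ℝ, ν = ∑ j, g j ⬝ᵥ toR (P j) := ⟨_, rfl⟩
  have h1 : 1 ≤ ν := by
    rw [hν, ← sum_b]
    exact Finset.sum_le_sum fun j _ => out j
  have h0 : 0 < ν := lt_of_lt_of_le one_pos h1
  refine thmA K f P (fun j => ν⁻¹ • g j) hK ⟨super, step, ?_, ?_, ?_, ?_⟩ ?_
  · rw [← Finset.smul_sum, sum_g, smul_zero]
  · simp only [smul_dotProduct, smul_eq_mul]
    rw [← Finset.mul_sum, ← hν, inv_mul_cancel₀ h0.ne']
  · intro j x hx
    rw [smul_dotProduct, smul_dotProduct, smul_eq_mul, smul_eq_mul]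
    exact mul_le_mul_of_nonneg_left ((sub j x hx).trans (out j)) (inv_nonneg.2 h0.le)
  · intro l m hlm
    have h2 : ∑ j, ((ν⁻¹ • g j) ⬝ᵥ toR (f l)) * ((ν⁻¹ • g j) ⬝ᵥ toR (f m)) =
        (ν⁻¹ * ν⁻¹) * ∑ j, (g j ⬝ᵥ toR (f l)) * (g j ⬝ᵥ toR (f m)) := by
      rw [Finset.mul_sum]
      refine Finset.sum_congr rfl fun j _ => ?_
      rw [smul_dotProduct, smul_dotProduct, smul_eq_mul, smul_eq_mul]
      ring
    rw [h2]
    exact mul_nonpos_of_nonneg_of_nonpos (by positivity) (obt l m hlm)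
  · intro m
    obtain ⟨a, ha⟩ := span (ν • m)
    refine ⟨a, ?_⟩
    have h2 : ∀ j, a j • ν⁻¹ • g j = ν⁻¹ • a j • g j := fun j => smul_comm _ _ _
    rw [Finset.sum_congr rfl fun j _ => h2 j, ← Finset.smul_sum, ha, smul_smul, inv_mul_cancel₀ h0.ne', one_smul]

section

variable {K : Set (Fin 3 → ℝ)} {f P : Fin 4 → Fin 3 → ℤ} {k : Fin 4} {g : Fin 4 → Fin 3 → ℝ} {b c : Fin 4 → ℝ}
  {h : ℝ}

theorem ww_pos' (hh : 0 < h) (hc : ∀ j, 0 ≤ c j) {t : ℝ} (h0 : 0 ≤ t) (h1 : t < 1) (j : Fin 4) :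
    0 < ww c h t j := by
  unfold ww
  have h2 := mul_nonneg h0 (div_nonneg (hc j) hh.le)
  linarith

theorem span_gs' (hg : ∑ j, g j = 0)
    (hspan : ∀ m : Fin 3 → ℝ, ∃ a : Fin 4 → ℝ, ∑ j, a j • g j = m) (hh : 0 < h)
    (hc : ∀ j, 0 ≤ c j) {t : ℝ} (h0 : 0 ≤ t) (h1 : t < 1) (m : Fin 3 → ℝ) :
    ∃ a : Fin 4 → ℝ, ∑ j, a j • gs g c k h t j = m := by
  obtain ⟨a, ha⟩ := hspan m
  refine ⟨fun j => if j = k then 0 else (a j - a k) / ww c h t j, ?_⟩
  have h2 : ∀ j, (if j = k then 0 else (a j - a k) / ww c h t j) • gs g c k h t j = a j • g j - a k • g j := by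
    intro j
    by_cases hj : j = k
    · rw [if_pos hj, hj]
      simp
    · rw [if_neg hj]
      unfold gs
      rw [if_neg hj, sub_zero, smul_smul, div_mul_cancel₀ _ (ww_pos' hh hc h0 h1 j).ne', sub_smul]
  rw [Finset.sum_congr rfl fun j _ => h2 j, Finset.sum_sub_distrib, ha, ← Finset.smul_sum, hg]
  simp

/-- the sum over the cut does not depend on the time -/
theorem cs_sum' (hh : 0 < h) (hck : c k = 0) (hc : ∀ j, 0 ≤ c j) {t : ℝ} (h0 : 0 ≤ t)
    (h1 : t < 1) (x : Fin 3 → ℝ) :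
    ∑ j, cs c h t j * (bs b c k h t j - gs g c k h t j ⬝ᵥ x) = ∑ j, c j * (b j - g j ⬝ᵥ x) := by
  refine Finset.sum_congr rfl fun j _ => ?_
  rw [val_t hh.ne']
  by_cases hj : j = k
  · rw [hj, cs, hck]
    simp
  · rw [if_neg hj, add_zero, cs, ← mul_assoc, div_mul_cancel₀ _ (ww_pos' hh hc h0 h1 j).ne']

/-- the values of the other facets -/
theorem val_ne (hh : 0 < h) (t : ℝ) {j : Fin 4} (hj : j ≠ k) (x : Fin 3 → ℝ) :
    bs b c k h t j - gs g c k h t j ⬝ᵥ x = ww c h t j * (b j - g j ⬝ᵥ x) := by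
  rw [val_t hh.ne', if_neg hj, add_zero]

/-- the value of the facet `k` -/
theorem val_k (hh : 0 < h) (hck : c k = 0) (t : ℝ) (x : Fin 3 → ℝ) :
    bs b c k h t k - gs g c k h t k ⬝ᵥ x =
      (1 - t) * (b k - g k ⬝ᵥ x) + t * (1 - (∑ j, c j * (b j - g j ⬝ᵥ x)) / h) := by
  rw [val_t hh.ne', if_pos rfl, ww_k hck]
  rfl

/-- the state at time `t`, without the position of `P k` -/
theorem sub_t (hs : WState K f P k g b c h) {t : ℝ} (h0 : 0 ≤ t) (h1 : t < 1) (j : Fin 4) (x : Fin 3 → ℝ)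
    (hx : x ∈ K) : gs g c k h t j ⬝ᵥ x ≤ bs b c k h t j := by
  refine sub_nonneg.1 ?_
  by_cases hj : j = k
  · rw [hj, val_k hs.h_pos hs.c_zero]
    refine add_nonneg (mul_nonneg (sub_nonneg.2 h1.le) (sub_nonneg.2 (hs.sub k x hx))) (mul_nonneg h0 ?_)
    refine sub_nonneg.2 ?_
    rw [div_le_one hs.h_pos]
    exact hs.cut x hx
  · rw [val_ne hs.h_pos t hj]
    exact mul_nonneg (ww_pos' hs.h_pos hs.c_nonneg h0 h1 j).le (sub_nonneg.2 (hs.sub j x hx))

theorem out_t (hs : WState K f P k g b c h) {t : ℝ} (h0 : 0 ≤ t) (h1 : t < 1) {j : Fin 4} (hj : j ≠ k) :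
    bs b c k h t j ≤ gs g c k h t j ⬝ᵥ toR (P j) := by
  have h2 := val_ne (b := b) (g := g) (c := c) hs.h_pos t hj (toR (P j))
  have h3 := mul_nonneg (ww_pos' hs.h_pos hs.c_nonneg h0 h1 j).le (sub_nonneg.2 (hs.out j hj))
  linarith

theorem wstate_t (hs : WState K f P k g b c h) {t : ℝ} (h0 : 0 ≤ t) (h1 : t < 1)
    (hin : 0 < bs b c k h t k - gs g c k h t k ⬝ᵥ toR (P k))
    (hob : ∀ l m, l ≠ m → ∑ j, (gs g c k h t j ⬝ᵥ toR (f l)) * (gs g c k h t j ⬝ᵥ toR (f m)) ≤ 0) :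
    WState K f P k (gs g c k h t) (bs b c k h t) (cs c h t) h := by
  refine ⟨hs.super, hs.step, sum_gs hs.sum_g t, sum_bs hs.sum_b hs.h_pos.ne' t,
    span_gs' hs.sum_g hs.span hs.h_pos hs.c_nonneg h0 h1, sub_t hs h0 h1, fun j hj => out_t hs h0 h1 hj, ?_,
    by linarith, ?_, ?_, hs.h_pos, ?_, ?_, hob⟩
  · intro j hj
    have h2 := val_ne (b := b) (g := g) (c := c) hs.h_pos t hj (toR (P k))
    have h3 := mul_nonneg (ww_pos' hs.h_pos hs.c_nonneg h0 h1 j).le (sub_nonneg.2 (hs.ins j hj))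
    linarith
  · rw [cs, hs.c_zero, zero_div]
  · intro j
    exact div_nonneg (hs.c_nonneg j) (ww_pos' hs.h_pos hs.c_nonneg h0 h1 j).le
  · intro x hx
    rw [cs_sum' hs.h_pos hs.c_zero hs.c_nonneg h0 h1]
    exact hs.cut x hx
  · rw [cs_sum' hs.h_pos hs.c_zero hs.c_nonneg h0 h1]
    exact hs.above

/-- the derivative term of the index `j` -/
def psi (g : Fin 4 → Fin 3 → ℝ) (f : Fin 4 → Fin 3 → ℤ) (k l m j : Fin 4) : ℝ :=
  2 * ((g j ⬝ᵥ toR (f l)) * (g j ⬝ᵥ toR (f m))) - (g k ⬝ᵥ toR (f l)) * (g j ⬝ᵥ toR (f m)) -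
    (g j ⬝ᵥ toR (f l)) * (g k ⬝ᵥ toR (f m))

/-- everything at time one, if the other coefficients of the cut are positive -/
theorem ww_one_pos (hh : 0 < h) (hc : ∀ j, j ≠ k → 0 < c j) {j : Fin 4} (hj : j ≠ k) : 0 < ww c h 1 j := by
  unfold ww
  have := div_pos (hc j hj) hh
  linarith

theorem thmA_one (thmA : ∀ (K : Set (Fin 3 → ℝ)) (f P : Fin 4 → Fin 3 → ℤ) (g : Fin 4 → Fin 3 → ℝ), LFree K →
      OChain K f P g → (∀ m : Fin 3 → ℝ, ∃ a : Fin 4 → ℝ, ∑ j, a j • g j = m) → WidthLe K (2 + Real.sqrt 2))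
    (hK : LFree K) (hs : WState K f P k g b c h) (hc : ∀ j, j ≠ k → 0 < c j)
    (hob : ∀ l m, l ≠ m → ∑ j, (gs g c k h 1 j ⬝ᵥ toR (f l)) * (gs g c k h 1 j ⬝ᵥ toR (f m)) ≤ 0) :
    WidthLe K (2 + Real.sqrt 2) := by
  refine thmA_out (b := bs b c k h 1) thmA hK hs.super hs.step (sum_gs hs.sum_g 1)
    (sum_bs (k := k) (c := c) hs.sum_b hs.h_pos.ne' 1) (span_gs hs.sum_g hs.span hs.h_pos hc zero_le_one le_rfl) (fun j x hx => ?_) (fun j => ?_) hob
  · refine sub_nonneg.1 ?_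
    by_cases hj : j = k
    · rw [hj, val_k hs.h_pos hs.c_zero, sub_self, zero_mul, zero_add, one_mul, sub_nonneg, div_le_one hs.h_pos]
      exact hs.cut x hx
    · rw [val_ne hs.h_pos 1 hj]
      exact mul_nonneg (ww_one_pos hs.h_pos hc hj).le (sub_nonneg.2 (hs.sub j x hx))
  · by_cases hj : j = k
    · rw [hj]
      have h2 := val_k (b := b) (g := g) hs.h_pos hs.c_zero 1 (toR (P k))
      have h3 := (one_le_div hs.h_pos).2 hs.above
      rw [sub_self, zero_mul, zero_add, one_mul] at h2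
      linarith
    · have h2 := val_ne (b := b) (g := g) (c := c) hs.h_pos 1 hj (toR (P j))
      have h3 := mul_nonneg (ww_one_pos hs.h_pos hc hj).le (sub_nonneg.2 (hs.out j hj))
      linarith

/-- **the wall reduction, second form** -/
theorem wall_red2 (thmA : ∀ (K : Set (Fin 3 → ℝ)) (f P : Fin 4 → Fin 3 → ℤ) (g : Fin 4 → Fin 3 → ℝ), LFree K →
      OChain K f P g → (∀ m : Fin 3 → ℝ, ∃ a : Fin 4 → ℝ, ∑ j, a j • g j = m) → WidthLe K (2 + Real.sqrt 2))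
    (hK : LFree K) (hs : WState K f P k g b c h)
    (hgood : h < ∑ j, c j * (b j - g j ⬝ᵥ toR (P k)) ∨ ∀ j, j ≠ k → 0 < c j) :
    WidthLe K (2 + Real.sqrt 2) ∨ ∃ t : ℝ, 0 ≤ t ∧ t < 1 ∧
      WState K f P k (gs g c k h t) (bs b c k h t) (cs c h t) h ∧
      ∃ l m, l ≠ m ∧ ∑ j, (gs g c k h t j ⬝ᵥ toR (f l)) * (gs g c k h t j ⬝ᵥ toR (f m)) = 0 ∧
        0 ≤ ∑ j, cs c h t j * psi (gs g c k h t) f k l m j := by
  set a : Fin 4 → Fin 4 → ℝ := fun l j => g j ⬝ᵥ toR (f l) with ha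
  set a1 : Fin 4 → Fin 4 → ℝ := fun l j => gs g c k h 1 j ⬝ᵥ toR (f l) with ha1
  have hat : ∀ (t : ℝ) (l j : Fin 4), gs g c k h t j ⬝ᵥ toR (f l) = (1 - t) * a l j + t * a1 l j := by
    intro t l j
    rw [gs_affine h t j, gs_zero, add_dotProduct, smul_dotProduct, smul_dotProduct, smul_eq_mul, smul_eq_mul]
  obtain ⟨e, he⟩ : ∃ e : ℝ, e = b k - g k ⬝ᵥ toR (P k) := ⟨_, rfl⟩
  obtain ⟨r, hr⟩ : ∃ r : ℝ, r = (∑ j, c j * (b j - g j ⬝ᵥ toR (P k))) / h := ⟨_, rfl⟩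
  by_cases hob1 : (∀ l m, l ≠ m → ∑ j, (gs g c k h 1 j ⬝ᵥ toR (f l)) * (gs g c k h 1 j ⬝ᵥ toR (f m)) ≤ 0) ∧
      ∀ j, j ≠ k → 0 < c j
  · exact Or.inl (thmA_one thmA hK hs hob1.2 hob1.1)
  set ι := {p : Fin 4 × Fin 4 // p.1 ≠ p.2}
  obtain ⟨t, ht0, ht1, hle, i, hi0, hid⟩ := first_wall (ι := Option ι)
    (fun p => match p with
      | none => e
      | some p => -∑ j, a p.1.1 j * a p.1.2 j)
    (fun p => match p with
      | none => -(e + r - 1)
      | some p => -∑ j, ((a1 p.1.1 j - a p.1.1 j) * a p.1.2 j + a p.1.1 j * (a1 p.1.2 j - a p.1.2 j)))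
    (fun p => match p with
      | none => 0
      | some p => -∑ j, (a1 p.1.1 j - a p.1.1 j) * (a1 p.1.2 j - a p.1.2 j))
    (fun p => by
      match p with
      | none =>
        simp only
        rw [he]
        linarith [hs.inner]
      | some p =>
        have := hs.obt p.1.1 p.1.2 p.2
        simp only [ha]
        linarith)
    (by
      rcases hgood with h1 | h1
      · refine ⟨none, ?_⟩
        have hr1 : 1 < r := by
          rw [hr, one_lt_div hs.h_pos]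
          exact h1
        simp only
        linarith
      · have h2 : ¬ ∀ l m, l ≠ m →
            ∑ j, (gs g c k h 1 j ⬝ᵥ toR (f l)) * (gs g c k h 1 j ⬝ᵥ toR (f m)) ≤ 0 := fun h3 => hob1 ⟨h3, h1⟩
        push Not at h2
        obtain ⟨l1, m1, hlm1, hpos1⟩ := h2
        refine ⟨some ⟨(l1, m1), hlm1⟩, ?_⟩
        simp only
        rw [← neg_add, ← neg_add, ← Finset.sum_add_distrib, ← Finset.sum_add_distrib, neg_lt_zero]
        refine lt_of_lt_of_eq hpos1 (Finset.sum_congr rfl fun j _ => ?_)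
        simp only [ha1]
        ring)
  have hq : ∀ (p : ι) (s : ℝ), -(∑ j, (gs g c k h s j ⬝ᵥ toR (f p.1.1)) * (gs g c k h s j ⬝ᵥ toR (f p.1.2))) =
      (-∑ j, a p.1.1 j * a p.1.2 j) +
      (-∑ j, ((a1 p.1.1 j - a p.1.1 j) * a p.1.2 j + a p.1.1 j * (a1 p.1.2 j - a p.1.2 j))) * s +
      (-∑ j, (a1 p.1.1 j - a p.1.1 j) * (a1 p.1.2 j - a p.1.2 j)) * s ^ 2 := by
    intro p s
    rw [neg_mul, neg_mul, Finset.sum_mul, Finset.sum_mul, ← neg_add, ← neg_add, ← Finset.sum_add_distrib,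
      ← Finset.sum_add_distrib]
    congr 1
    refine Finset.sum_congr rfl fun j _ => ?_
    rw [hat, hat]
    ring
  have hobt : ∀ l m, l ≠ m → ∑ j, (gs g c k h t j ⬝ᵥ toR (f l)) * (gs g c k h t j ⬝ᵥ toR (f m)) ≤ 0 := by
    intro l m hlm
    have h1 := hle (some ⟨(l, m), hlm⟩) t ht0 le_rfl
    have h2 := hq ⟨(l, m), hlm⟩ t
    simp only at h1 h2
    linarith
  have hval : bs b c k h t k - gs g c k h t k ⬝ᵥ toR (P k) = e + -(e + r - 1) * t := by
    rw [val_k hs.h_pos hs.c_zero, ← he, ← hr]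
    ring
  have hvn : 0 ≤ bs b c k h t k - gs g c k h t k ⬝ᵥ toR (P k) := by
    have h1 := hle none t ht0 le_rfl
    simp only at h1
    rw [hval]
    linarith
  by_cases hv0 : bs b c k h t k - gs g c k h t k ⬝ᵥ toR (P k) = 0
  · left
    refine thmA_out thmA hK hs.super hs.step (sum_gs hs.sum_g t) (sum_bs hs.sum_b hs.h_pos.ne' t)
      (span_gs' hs.sum_g hs.span hs.h_pos hs.c_nonneg ht0 ht1) (sub_t hs ht0 ht1) (fun j => ?_) hobt
    by_cases hj : j = k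
    · rw [hj]
      linarith
    · exact out_t hs ht0 ht1 hj
  right
  have hin := lt_of_le_of_ne hvn (Ne.symm hv0)
  have hst := wstate_t hs ht0 ht1 hin hobt
  match i, hi0, hid with
  | none, hi0, hid =>
    exact absurd (by simp only at hi0; rw [hval]; linarith) hv0
  | some i, hi0, hid =>
    simp only at hi0 hid
    have h2 := hq i t
    have h3 : ∑ j, (gs g c k h t j ⬝ᵥ toR (f i.1.1)) * (gs g c k h t j ⬝ᵥ toR (f i.1.2)) = 0 := by linarith
    refine ⟨t, ht0, ht1, hst, i.1.1, i.1.2, i.2, h3, ?_⟩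
    have h4 : ∑ j, ((gs g c k h t j ⬝ᵥ toR (f i.1.1)) * (gs g c k h 1 j ⬝ᵥ toR (f i.1.2)) +
          (gs g c k h t j ⬝ᵥ toR (f i.1.2)) * (gs g c k h 1 j ⬝ᵥ toR (f i.1.1))) =
        -((1 - t) * ((-∑ j, ((a1 i.1.1 j - a i.1.1 j) * a i.1.2 j + a i.1.1 j * (a1 i.1.2 j - a i.1.2 j))) +
          2 * (-∑ j, (a1 i.1.1 j - a i.1.1 j) * (a1 i.1.2 j - a i.1.2 j)) * t)) +
        2 * ∑ j, (gs g c k h t j ⬝ᵥ toR (f i.1.1)) * (gs g c k h t j ⬝ᵥ toR (f i.1.2)) := by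
      have e1 : ∀ X Y : ℝ, -((1 - t) * (-X + 2 * -Y * t)) = (1 - t) * X + 2 * (1 - t) * t * Y := by
        intro X Y
        ring
      rw [e1, Finset.mul_sum, Finset.mul_sum, Finset.mul_sum, ← Finset.sum_add_distrib,
        ← Finset.sum_add_distrib]
      refine Finset.sum_congr rfl fun j _ => ?_
      rw [hat t, hat t, hat 1, hat 1]
      ring
    have h5 : 0 ≤ ∑ j, ((gs g c k h t j ⬝ᵥ toR (f i.1.1)) * (gs g c k h 1 j ⬝ᵥ toR (f i.1.2)) +
          (gs g c k h t j ⬝ᵥ toR (f i.1.2)) * (gs g c k h 1 j ⬝ᵥ toR (f i.1.1))) := by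
      rw [h4, h3, mul_zero, add_zero]
      have h5 := mul_nonneg (sub_nonneg.2 ht1.le) (neg_nonneg.2 hid)
      linarith
    -- the normals at time one in terms of the normals at time `t`
    have h6 : ∀ j, h • gs g c k h 1 j = cs c h t j • gs g c k h t j -
        if j = k then ∑ i, cs c h t i • gs g c k h t i else 0 := by
      have h7 : ∀ j, cs c h t j • gs g c k h t j = c j • g j := by
        intro j
        by_cases hj : j = k
        · rw [hj, cs, hs.c_zero, zero_div, zero_smul, zero_smul]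
        · unfold gs
          rw [if_neg hj, sub_zero, smul_smul, cs, div_mul_cancel₀ _ (ww_pos' hs.h_pos hs.c_nonneg ht0 ht1 j).ne']
      intro j
      rw [h7 j, Finset.sum_congr rfl fun i _ => h7 i]
      unfold gs ww
      rw [smul_sub, smul_smul]
      congr 1
      · congr 1
        have := hs.h_pos.ne'
        field_simp
        ring
      · split_ifs
        · rw [smul_smul, mul_one_div_cancel hs.h_pos.ne', one_smul]
        · rw [smul_zero]
    have h8 : ∀ j (x : Fin 3 → ℝ), h * (gs g c k h 1 j ⬝ᵥ x) = cs c h t j * (gs g c k h t j ⬝ᵥ x) -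
        if j = k then ∑ i, cs c h t i * (gs g c k h t i ⬝ᵥ x) else 0 := by
      intro j x
      have h9 := congrArg (fun v => v ⬝ᵥ x) (h6 j)
      rw [smul_dotProduct, smul_eq_mul, sub_dotProduct, smul_dotProduct, smul_eq_mul] at h9
      rw [h9]
      congr 1
      split_ifs
      · rw [sum_dotProduct]
        exact Finset.sum_congr rfl fun i _ => by rw [smul_dotProduct, smul_eq_mul]
      · rw [zero_dotProduct]
    have h9 : h * ∑ j, ((gs g c k h t j ⬝ᵥ toR (f i.1.1)) * (gs g c k h 1 j ⬝ᵥ toR (f i.1.2)) +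
          (gs g c k h t j ⬝ᵥ toR (f i.1.2)) * (gs g c k h 1 j ⬝ᵥ toR (f i.1.1))) =
        ∑ j, cs c h t j * psi (gs g c k h t) f k i.1.1 i.1.2 j := by
      unfold psi
      have e1 : ∀ j, h * ((gs g c k h t j ⬝ᵥ toR (f i.1.1)) * (gs g c k h 1 j ⬝ᵥ toR (f i.1.2)) +
          (gs g c k h t j ⬝ᵥ toR (f i.1.2)) * (gs g c k h 1 j ⬝ᵥ toR (f i.1.1))) =
          cs c h t j * (2 * ((gs g c k h t j ⬝ᵥ toR (f i.1.1)) * (gs g c k h t j ⬝ᵥ toR (f i.1.2)))) -
          if j = k then (gs g c k h t j ⬝ᵥ toR (f i.1.1)) * (∑ i', cs c h t i' * (gs g c k h t i' ⬝ᵥ toR (f i.1.2))) +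
            (gs g c k h t j ⬝ᵥ toR (f i.1.2)) * (∑ i', cs c h t i' * (gs g c k h t i' ⬝ᵥ toR (f i.1.1))) else 0 := by
        intro j
        have e2 := h8 j (toR (f i.1.1))
        have e3 := h8 j (toR (f i.1.2))
        have e4 : h * ((gs g c k h t j ⬝ᵥ toR (f i.1.1)) * (gs g c k h 1 j ⬝ᵥ toR (f i.1.2)) +
          (gs g c k h t j ⬝ᵥ toR (f i.1.2)) * (gs g c k h 1 j ⬝ᵥ toR (f i.1.1))) =
          (gs g c k h t j ⬝ᵥ toR (f i.1.1)) * (h * (gs g c k h 1 j ⬝ᵥ toR (f i.1.2))) +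
          (gs g c k h t j ⬝ᵥ toR (f i.1.2)) * (h * (gs g c k h 1 j ⬝ᵥ toR (f i.1.1))) := by ring
        rw [e4, e2, e3]
        split_ifs <;> ring
      rw [Finset.mul_sum, Finset.sum_congr rfl fun j _ => e1 j, Finset.sum_sub_distrib,
        Finset.sum_ite_eq' Finset.univ k, if_pos (Finset.mem_univ k), Finset.mul_sum, Finset.mul_sum,
        ← Finset.sum_add_distrib, ← Finset.sum_sub_distrib]
      refine Finset.sum_congr rfl fun j _ => ?_
      ring
    rw [← h9]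
    exact mul_nonneg hs.h_pos.le h5

/-- the sum of the derivative terms vanishes on the wall -/
theorem psi_sum (hg : ∑ j, g j = 0) (f : Fin 4 → Fin 3 → ℤ) (k l m : Fin 4) :
    ∑ j, psi g f k l m j = 2 * ∑ j, (g j ⬝ᵥ toR (f l)) * (g j ⬝ᵥ toR (f m)) := by
  have h1 : ∀ x : Fin 3 → ℝ, ∑ j, g j ⬝ᵥ x = 0 := fun x => by rw [← sum_dotProduct, hg, zero_dotProduct]
  unfold psi
  rw [Finset.sum_sub_distrib, Finset.sum_sub_distrib, ← Finset.mul_sum, ← Finset.mul_sum, ← Finset.sum_mul,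
    h1, h1]
  ring

theorem psi_self (g : Fin 4 → Fin 3 → ℝ) (f : Fin 4 → Fin 3 → ℤ) (k l m : Fin 4) : psi g f k l m k = 0 := by
  unfold psi
  ring

/-- the order of the coefficients of the cut does not change -/
theorem cs_lt (hh : 0 < h) (hc : ∀ j, 0 ≤ c j) {t : ℝ} (h0 : 0 ≤ t) (h1 : t < 1) {i j : Fin 4} (hij : c i < c j) :
    cs c h t i < cs c h t j := by
  unfold cs
  rw [div_lt_div_iff₀ (ww_pos' hh hc h0 h1 i) (ww_pos' hh hc h0 h1 j)]
  unfold ww
  have h2 := mul_pos (sub_pos.2 h1) (sub_pos.2 hij)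
  have h3 : c j * ((1 - t) + t * (c i / h)) - c i * ((1 - t) + t * (c j / h)) = (1 - t) * (c j - c i) := by ring
  linarith

/-- the truncation of a vertex at time `t` -/
theorem budget_t (hh : 0 < h) (hc : ∀ j, 0 ≤ c j) {t : ℝ} (h0 : 0 ≤ t) (h1 : t < 1) {j : Fin 4} (hj : 0 < c j) :
    1 - h / cs c h t j = (1 - t) * (1 - h / c j) := by
  have h2 := (ww_pos' hh hc h0 h1 j).ne'
  rw [cs, div_div_eq_mul_div]
  unfold ww at h2 ⊢
  have h3 := hj.ne'
  have h4 := hh.ne'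
  field_simp
  ring

/-- **the wall reduction with the sign condition** -/
theorem wall_red3 (thmA : ∀ (K : Set (Fin 3 → ℝ)) (f P : Fin 4 → Fin 3 → ℤ) (g : Fin 4 → Fin 3 → ℝ), LFree K →
      OChain K f P g → (∀ m : Fin 3 → ℝ, ∃ a : Fin 4 → ℝ, ∑ j, a j • g j = m) → WidthLe K (2 + Real.sqrt 2))
    (hK : LFree K) (hs : WState K f P k g b c h) (hone : ∃ j, 0 < c j)
    (hgood : h < ∑ j, c j * (b j - g j ⬝ᵥ toR (P k)) ∨ ∀ j, j ≠ k → 0 < c j) :
    WidthLe K (2 + Real.sqrt 2) ∨ ∃ t : ℝ, 0 ≤ t ∧ t < 1 ∧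
      WState K f P k (gs g c k h t) (bs b c k h t) (cs c h t) h ∧
      ∃ l m, l ≠ m ∧ ∑ j, (gs g c k h t j ⬝ᵥ toR (f l)) * (gs g c k h t j ⬝ᵥ toR (f m)) = 0 ∧
        0 ≤ ∑ j, cs c h t j * psi (gs g c k h t) f k l m j ∧
        ∃ i j, i ≠ k ∧ j ≠ k ∧ cs c h t j < cs c h t i ∧ 0 ≤ psi (gs g c k h t) f k l m i := by
  by_cases heq : ∀ i j, i ≠ k → j ≠ k → c i = c j
  · -- all coefficients are equal: the path does not change the products
    left
    obtain ⟨j0, hj0⟩ := hone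
    have hj0k : j0 ≠ k := fun h1 => by
      rw [h1, hs.c_zero] at hj0
      exact lt_irrefl _ hj0
    have hc : ∀ j, j ≠ k → 0 < c j := fun j hj => by
      rw [heq j j0 hj hj0k]
      exact hj0
    refine thmA_one thmA hK hs hc fun l m hlm => ?_
    have h1 : ∀ j, gs g c k h 1 j = (c j0 / h) • g j := by
      have h2 : ∑ i, c i • g i = -(c j0 • g k) := by
        have h3 : ∀ i, c i • g i = c j0 • g i - if i = k then c j0 • g i else 0 := by
          intro i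
          by_cases hi : i = k
          · rw [hi, hs.c_zero, if_pos rfl, sub_self, zero_smul]
          · rw [if_neg hi, sub_zero, heq i j0 hi hj0k]
        rw [Finset.sum_congr rfl fun i _ => h3 i, Finset.sum_sub_distrib, ← Finset.smul_sum, hs.sum_g, smul_zero,
          Finset.sum_ite_eq' Finset.univ k, if_pos (Finset.mem_univ k), zero_sub]
      intro j
      unfold gs ww
      by_cases hj : j = k
      · rw [hj, if_pos rfl, hs.c_zero, h2, smul_neg, smul_smul]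
        simp only [sub_self, zero_div, mul_zero, add_zero, zero_smul, zero_sub, neg_neg]
        congr 1
        ring
      · rw [if_neg hj, heq j j0 hj hj0k]
        simp
    have h2 : ∑ j, (gs g c k h 1 j ⬝ᵥ toR (f l)) * (gs g c k h 1 j ⬝ᵥ toR (f m)) =
        (c j0 / h * (c j0 / h)) * ∑ j, (g j ⬝ᵥ toR (f l)) * (g j ⬝ᵥ toR (f m)) := by
      rw [Finset.mul_sum]
      refine Finset.sum_congr rfl fun j _ => ?_
      rw [h1, smul_dotProduct, smul_dotProduct, smul_eq_mul, smul_eq_mul]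
      ring
    rw [h2]
    exact mul_nonpos_of_nonneg_of_nonpos (mul_self_nonneg _) (hs.obt l m hlm)
  rcases wall_red2 thmA hK hs hgood with h1 | ⟨t, ht0, ht1, hst, l, m, hlm, hz, hsum⟩
  · exact Or.inl h1
  right
  refine ⟨t, ht0, ht1, hst, l, m, hlm, hz, hsum, ?_⟩
  push Not at heq
  obtain ⟨i1, j1, hi1, hj1, hne⟩ := heq
  -- the minimum of the other coefficients
  have hex : ∃ j0, j0 ≠ k ∧ ∀ j, j ≠ k → cs c h t j0 ≤ cs c h t j := by
    obtain ⟨j0, hj0, hmin⟩ := Finset.exists_min_image (Finset.univ.filter fun j => j ≠ k) (cs c h t)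
      ⟨i1, by simp [hi1]⟩
    exact ⟨j0, by simpa using hj0, fun j hj => hmin j (by simp [hj])⟩
  obtain ⟨j0, hj0, hmin⟩ := hex
  by_contra hcon
  push Not at hcon
  have h2 : ∀ i, i ≠ k → cs c h t j0 < cs c h t i → psi (gs g c k h t) f k l m i < 0 :=
    fun i hi h3 => hcon i j0 hi hj0 h3
  have h3 : ∑ j, (cs c h t j - cs c h t j0) * psi (gs g c k h t) f k l m j < 0 := by
    have h4 : ∀ j, (cs c h t j - cs c h t j0) * psi (gs g c k h t) f k l m j ≤ 0 := by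
      intro j
      by_cases hj : j = k
      · rw [hj, psi_self, mul_zero]
      rcases (hmin j hj).eq_or_lt with h5 | h5
      · rw [h5, sub_self, zero_mul]
      · exact mul_nonpos_of_nonneg_of_nonpos (sub_nonneg.2 h5.le) (h2 j hj h5).le
    have h6 : ∃ i, i ≠ k ∧ cs c h t j0 < cs c h t i := by
      rcases lt_or_gt_of_ne hne with h7 | h7
      · exact ⟨j1, hj1, lt_of_le_of_lt (hmin i1 hi1) (cs_lt hs.h_pos hs.c_nonneg ht0 ht1 h7)⟩
      · exact ⟨i1, hi1, lt_of_le_of_lt (hmin j1 hj1) (cs_lt hs.h_pos hs.c_nonneg ht0 ht1 h7)⟩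
    obtain ⟨i, hi, hlt⟩ := h6
    exact Finset.sum_neg' (fun j _ => h4 j) ⟨i, Finset.mem_univ i, mul_neg_of_pos_of_neg (sub_pos.2 hlt) (h2 i hi hlt)⟩
  have h4 : ∑ j, (cs c h t j - cs c h t j0) * psi (gs g c k h t) f k l m j =
      ∑ j, cs c h t j * psi (gs g c k h t) f k l m j - cs c h t j0 * ∑ j, psi (gs g c k h t) f k l m j := by
    rw [Finset.mul_sum, ← Finset.sum_sub_distrib]
    exact Finset.sum_congr rfl fun j _ => by ring
  rw [h4, psi_sum hst.sum_g, hz, mul_zero, mul_zero, sub_zero] at h3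
  linarith

end

end Pool.Agent.Helper21.WALL
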