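import Mathlib

/-! MP_be0fb5, wall reduction: the first zero of finitely many quadratic functions. -/

set_option autoImplicit false

namespace Pool.Agent.Helper21.WALL

open Filter Topology

/-- **first wall**: finitely many quadratic functions, nonnegative at `0`, one of them negative at `1`.  At the first
time at which one of them is about to become negative, it vanishes and its derivative is nonpositive. -/
theorem first_wall {ι : Type*} [Finite ι] (A B C : ι → ℝ) (h0 : ∀ i, 0 ≤ A i)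
    (h1 : ∃ i, A i + B i + C i < 0) :
    ∃ t : ℝ, 0 ≤ t ∧ t < 1 ∧ (∀ i s, 0 ≤ s → s ≤ t → 0 ≤ A i + B i * s + C i * s ^ 2) ∧
      ∃ i, A i + B i * t + C i * t ^ 2 = 0 ∧ B i + 2 * C i * t ≤ 0 := by
  set p : ι → ℝ → ℝ := fun i s => A i + B i * s + C i * s ^ 2 with hp
  have hcont : ∀ i, Continuous (p i) := fun i => by
    rw [hp]
    fun_prop
  set T : Set ℝ := {t | t ∈ Set.Icc (0 : ℝ) 1 ∧ ∀ i, ∀ s ∈ Set.Icc (0 : ℝ) t, 0 ≤ p i s} with hT
  have hT0 : (0 : ℝ) ∈ T := by
    refine ⟨⟨le_rfl, zero_le_one⟩, fun i s hs => ?_⟩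
    have h2 : s = 0 := le_antisymm hs.2 hs.1
    rw [h2, hp]
    simpa using h0 i
  have hbdd : BddAbove T := ⟨1, fun t ht => ht.1.2⟩
  set t := sSup T with ht
  have ht0 : 0 ≤ t := le_csSup hbdd hT0
  have ht1 : t ≤ 1 := csSup_le ⟨0, hT0⟩ fun s hs => hs.1.2
  have hbelow : ∀ i s, 0 ≤ s → s < t → 0 ≤ p i s := by
    intro i s hs0 hst
    obtain ⟨u, hu, hsu⟩ := exists_lt_of_lt_csSup ⟨0, hT0⟩ hst
    exact hu.2 i s ⟨hs0, hsu.le⟩
  have hat : ∀ i, 0 ≤ p i t := by
    intro i
    rcases ht0.eq_or_lt with h2 | h2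
    · rw [← h2]
      exact hT0.2 i 0 ⟨le_rfl, le_rfl⟩
    · have h3 : Tendsto (p i) (𝓝[<] t) (𝓝 (p i t)) := (hcont i).continuousAt.tendsto.mono_left nhdsWithin_le_nhds
      refine ge_of_tendsto h3 ?_
      have h4 : Set.Ioo 0 t ∈ 𝓝[<] t := Ioo_mem_nhdsLT h2
      filter_upwards [h4] with s hs
      exact hbelow i s hs.1.le hs.2
  have hle : ∀ i s, 0 ≤ s → s ≤ t → 0 ≤ p i s := by
    intro i s hs0 hst
    rcases hst.eq_or_lt with h2 | h2
    · rw [h2]
      exact hat i
    · exact hbelow i s hs0 h2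
  have hlt : t < 1 := by
    refine lt_of_le_of_ne ht1 fun h2 => ?_
    obtain ⟨i, hi⟩ := h1
    have h3 := hat i
    rw [h2, hp] at h3
    simp only [mul_one, one_pow] at h3
    linarith
  refine ⟨t, ht0, hlt, hle, ?_⟩
  by_contra hcon
  push Not at hcon
  have hev : ∀ i, ∀ᶠ s in 𝓝[>] t, 0 ≤ p i s := by
    intro i
    rcases (hat i).eq_or_lt with h2 | h2
    · have h3 := hcon i h2.symm
      have h4 : ∀ᶠ s in 𝓝[>] t, 0 < B i + 2 * C i * t + C i * (s - t) := by
        have h5 : Tendsto (fun s : ℝ => B i + 2 * C i * t + C i * (s - t)) (𝓝[>] t)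
            (𝓝 (B i + 2 * C i * t + C i * (t - t))) := by
          have h6 : Continuous fun s : ℝ => B i + 2 * C i * t + C i * (s - t) := by fun_prop
          exact h6.continuousAt.tendsto.mono_left nhdsWithin_le_nhds
        rw [sub_self, mul_zero, add_zero] at h5
        exact h5.eventually (lt_mem_nhds h3)
      filter_upwards [h4, self_mem_nhdsWithin] with s hs hst
      have h7 : p i s = p i t + (s - t) * (B i + 2 * C i * t + C i * (s - t)) := by
        rw [hp]
        simp only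
        ring
      rw [h7, ← h2, zero_add]
      exact mul_nonneg (sub_nonneg.2 (le_of_lt hst)) hs.le
    · have h3 : Tendsto (p i) (𝓝[>] t) (𝓝 (p i t)) :=
        (hcont i).continuousAt.tendsto.mono_left nhdsWithin_le_nhds
      exact (h3.eventually (lt_mem_nhds h2)).mono fun s hs => hs.le
  have hall : ∀ᶠ s in 𝓝[>] t, ∀ i, 0 ≤ p i s := eventually_all.2 hev
  obtain ⟨u, hu, hsub⟩ := mem_nhdsGT_iff_exists_Ioo_subset.1 hall
  have hu' : t < u := hu
  obtain ⟨w, hw1, hw2⟩ := exists_between (lt_min hu' hlt)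
  have hwT : w ∈ T := by
    refine ⟨⟨ht0.trans hw1.le, (hw2.trans_le (min_le_right _ _)).le⟩, fun i s hs => ?_⟩
    rcases le_or_gt s t with h2 | h2
    · exact hle i s hs.1 h2
    · exact hsub ⟨h2, lt_of_le_of_lt hs.2 (hw2.trans_le (min_le_left _ _))⟩ i
  exact absurd (le_csSup hbdd hwT) (not_le.2 hw1)

end Pool.Agent.Helper21.WALL
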