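import Pool.Agent.Helper38.TET.Defs
import Pool.Agent.Helper21.WALL.First

/-!
# MP_be0fb5: rotate until the wall (helper5, helper15)

`K` lies in a simplex whose facets `j ≠ k` pass through the points `P j` of the chain of an obtuse superbase, the
point `P k` is an inner point of the simplex and `K` is cut at `P k` by a plane `∑ c j L j ≤ const` with `c k = 0`.
Then either `K` has width at most `2 + √2` (Theorem A), or there is such a simplex on a wall: one product of the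
superbase vanishes and it decreases in the direction of the chain simplex with the cut as facet.
-/

set_option autoImplicit false

namespace Pool.Agent.Helper21.WALL

open Matrix Pool.Agent.Helper12.LW
open Pool.Agent.Helper84.FL (Superbase WidthLe)
open Pool.Agent.Helper38.TET (OChain)

/-- a simplex around `K`, the chain of an obtuse superbase with one inner point `P k`, and the cut of `K` there -/
structure ECut (K : Set (Fin 3 → ℝ)) (f P : Fin 4 → Fin 3 → ℤ) (k : Fin 4) (g : Fin 4 → Fin 3 → ℝ)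
    (b c : Fin 4 → ℝ) : Prop where
  super : Superbase f
  step : ∀ l, P (l + 1) = P l + f l
  sum_g : ∑ j, g j = 0
  sum_b : ∑ j, b j = 1
  span : ∀ m : Fin 3 → ℝ, ∃ a : Fin 4 → ℝ, ∑ j, a j • g j = m
  sub : ∀ j, ∀ x ∈ K, g j ⬝ᵥ x ≤ b j
  on : ∀ j, j ≠ k → b j = g j ⬝ᵥ toR (P j)
  inner : g k ⬝ᵥ toR (P k) < b k
  c_zero : c k = 0
  c_pos : ∀ j, j ≠ k → 0 < c j
  cut : ∀ x ∈ K, ∑ j, c j * (b j - g j ⬝ᵥ x) ≤ ∑ j, c j * (b j - g j ⬝ᵥ toR (P k))
  obt : ∀ l m, l ≠ m → ∑ j, (g j ⬝ᵥ toR (f l)) * (g j ⬝ᵥ toR (f m)) ≤ 0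

/-- the level of the cut -/
def HH (g : Fin 4 → Fin 3 → ℝ) (b c : Fin 4 → ℝ) (q : Fin 3 → ℝ) : ℝ := ∑ j, c j * (b j - g j ⬝ᵥ q)

/-- the factor of the facet `j` at time `t` -/
noncomputable def ww (c : Fin 4 → ℝ) (H t : ℝ) (j : Fin 4) : ℝ := (1 - t) + t * (c j / H)

/-- the normals at time `t` -/
noncomputable def gs (g : Fin 4 → Fin 3 → ℝ) (c : Fin 4 → ℝ) (k : Fin 4) (H t : ℝ) (j : Fin 4) : Fin 3 → ℝ :=
  ww c H t j • g j - if j = k then (t / H) • ∑ i, c i • g i else 0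

/-- the heights at time `t` -/
noncomputable def bs (b c : Fin 4 → ℝ) (k : Fin 4) (H t : ℝ) (j : Fin 4) : ℝ :=
  ww c H t j * b j + if j = k then t * (1 - (∑ i, c i * b i) / H) else 0

/-- the weights of the cut at time `t` -/
noncomputable def cs (c : Fin 4 → ℝ) (H t : ℝ) (j : Fin 4) : ℝ := c j / ww c H t j

section

variable {K : Set (Fin 3 → ℝ)} {f P : Fin 4 → Fin 3 → ℤ} {k : Fin 4} {g : Fin 4 → Fin 3 → ℝ} {b c : Fin 4 → ℝ}

/-- the value at time `t` -/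
theorem val_t {H : ℝ} (hH : H ≠ 0) (t : ℝ) (j : Fin 4) (x : Fin 3 → ℝ) :
    bs b c k H t j - gs g c k H t j ⬝ᵥ x =
      ww c H t j * (b j - g j ⬝ᵥ x) + if j = k then t * (1 - HH g b c x / H) else 0 := by
  have h1 : HH g b c x = ∑ i, c i * b i - (∑ i, c i • g i) ⬝ᵥ x := by
    unfold HH
    rw [sum_dotProduct, ← Finset.sum_sub_distrib]
    refine Finset.sum_congr rfl fun i _ => ?_
    rw [smul_dotProduct, smul_eq_mul]
    ring
  unfold bs gs
  rw [sub_dotProduct, smul_dotProduct, smul_eq_mul]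
  split_ifs with h
  · rw [smul_dotProduct, smul_eq_mul, h1]
    field_simp
    ring
  · rw [zero_dotProduct]
    ring

theorem gs_affine (H t : ℝ) (j : Fin 4) :
    gs g c k H t j = (1 - t) • gs g c k H 0 j + t • gs g c k H 1 j := by
  unfold gs ww
  funext i
  split_ifs <;> simp <;> ring

theorem gs_zero (H : ℝ) (j : Fin 4) : gs g c k H 0 j = g j := by
  unfold gs ww
  funext i
  split_ifs <;> simp

theorem sum_gs (hg : ∑ j, g j = 0) {H : ℝ} (t : ℝ) : ∑ j, gs g c k H t j = 0 := by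
  unfold gs
  rw [Finset.sum_sub_distrib, Finset.sum_ite_eq' Finset.univ k, if_pos (Finset.mem_univ k)]
  have h1 : ∑ j, ww c H t j • g j = (1 - t) • ∑ j, g j + (t / H) • ∑ j, c j • g j := by
    rw [Finset.smul_sum, Finset.smul_sum, ← Finset.sum_add_distrib]
    refine Finset.sum_congr rfl fun j _ => ?_
    unfold ww
    rw [smul_smul, ← add_smul]
    congr 1
    ring
  rw [h1, hg]
  simp

theorem sum_bs (hb : ∑ j, b j = 1) {H : ℝ} (hH : H ≠ 0) (t : ℝ) : ∑ j, bs b c k H t j = 1 := by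
  unfold bs
  rw [Finset.sum_add_distrib, Finset.sum_ite_eq' Finset.univ k, if_pos (Finset.mem_univ k)]
  have h1 : ∑ j, ww c H t j * b j = (1 - t) * ∑ j, b j + (t / H) * ∑ j, c j * b j := by
    rw [Finset.mul_sum, Finset.mul_sum, ← Finset.sum_add_distrib]
    refine Finset.sum_congr rfl fun j _ => ?_
    unfold ww
    ring
  rw [h1, hb]
  field_simp
  ring

theorem ww_pos {H : ℝ} (hH : 0 < H) (hc : ∀ j, j ≠ k → 0 < c j) {t : ℝ} (h0 : 0 ≤ t) (h1 : t ≤ 1) {j : Fin 4}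
    (hj : j ≠ k) : 0 < ww c H t j := by
  unfold ww
  have h2 : 0 < c j / H := div_pos (hc j hj) hH
  rcases h0.eq_or_lt with h3 | h3
  · rw [← h3]
    simp
  · have := mul_pos h3 h2
    linarith

theorem ww_k (hck : c k = 0) (H t : ℝ) : ww c H t k = 1 - t := by
  unfold ww
  rw [hck]
  simp

theorem span_gs (hg : ∑ j, g j = 0)
    (hspan : ∀ m : Fin 3 → ℝ, ∃ a : Fin 4 → ℝ, ∑ j, a j • g j = m) {H : ℝ} (hH : 0 < H)
    (hc : ∀ j, j ≠ k → 0 < c j) {t : ℝ} (h0 : 0 ≤ t) (h1 : t ≤ 1) (m : Fin 3 → ℝ) :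
    ∃ a : Fin 4 → ℝ, ∑ j, a j • gs g c k H t j = m := by
  obtain ⟨a, ha⟩ := hspan m
  refine ⟨fun j => if j = k then 0 else (a j - a k) / ww c H t j, ?_⟩
  have h2 : ∀ j, (if j = k then 0 else (a j - a k) / ww c H t j) • gs g c k H t j = a j • g j - a k • g j := by
    intro j
    by_cases hj : j = k
    · rw [if_pos hj, hj]
      simp
    · rw [if_neg hj]
      unfold gs
      rw [if_neg hj, sub_zero, smul_smul, div_mul_cancel₀ _ (ww_pos hH hc h0 h1 hj).ne', sub_smul]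
  rw [Finset.sum_congr rfl fun j _ => h2 j, Finset.sum_sub_distrib, ha, ← Finset.smul_sum, hg]
  simp

/-- the level of the cut is positive -/
theorem HH_pos (hK : LFree K) (h : ECut K f P k g b c) : 0 < HH g b c (toR (P k)) := by
  obtain ⟨x0, hx0⟩ := hK.interior_nonempty
  obtain ⟨j, hjk, hgj⟩ : ∃ j, j ≠ k ∧ g j ≠ 0 := by
    by_contra hcon
    push Not at hcon
    have h1 : g k = 0 := by
      have h2 := h.sum_g
      rw [← Finset.add_sum_erase _ _ (Finset.mem_univ k)] at h2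
      rw [Finset.sum_eq_zero fun j hj => hcon j (Finset.ne_of_mem_erase hj), add_zero] at h2
      exact h2
    have h3 : ∀ j, g j = 0 := fun j => by
      by_cases hj : j = k
      · rw [hj, h1]
      · exact hcon j hj
    obtain ⟨a, ha⟩ := h.span (Pi.single 0 1)
    simp only [h3, smul_zero, Finset.sum_const_zero] at ha
    have h4 := congrFun ha 0
    simp at h4
  have h1 : 0 < b j - g j ⬝ᵥ x0 := by
    have h2 : Filter.Tendsto (fun t : ℝ => x0 + t • g j) (nhdsWithin 0 (Set.Ioi 0)) (nhds x0) := by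
      have h3 : Continuous fun t : ℝ => x0 + t • g j := by fun_prop
      have h4 := h3.tendsto 0
      simp only [zero_smul, add_zero] at h4
      exact h4.mono_left nhdsWithin_le_nhds
    have h3 := h2.eventually (mem_interior_iff_mem_nhds.1 hx0)
    obtain ⟨t, ht, ht0⟩ := (h3.and self_mem_nhdsWithin).exists
    have h4 := h.sub j _ ht
    rw [dotProduct_add, dotProduct_smul, smul_eq_mul] at h4
    have h5 : 0 < g j ⬝ᵥ g j := by
      have h6 : 0 ≤ g j ⬝ᵥ g j := Finset.sum_nonneg fun a _ => mul_self_nonneg _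
      exact lt_of_le_of_ne h6 fun h => hgj (dotProduct_self_eq_zero.1 h.symm)
    have h6 := mul_pos (show (0 : ℝ) < t from ht0) h5
    linarith
  have h2 : 0 < ∑ i, c i * (b i - g i ⬝ᵥ x0) := by
    refine Finset.sum_pos' (fun i _ => ?_) ⟨j, Finset.mem_univ j, mul_pos (h.c_pos j hjk) h1⟩
    refine mul_nonneg ?_ (sub_nonneg.2 (h.sub i x0 (interior_subset hx0)))
    by_cases hi : i = k
    · rw [hi, h.c_zero]
    · exact (h.c_pos i hi).le
  exact lt_of_lt_of_le h2 (h.cut x0 (interior_subset hx0))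

/-- the sum over the cut does not depend on the time -/
theorem cs_sum {H : ℝ} (hH : 0 < H) (hck : c k = 0) (hc : ∀ j, j ≠ k → 0 < c j) {t : ℝ} (h0 : 0 ≤ t)
    (h1 : t ≤ 1) (x : Fin 3 → ℝ) :
    ∑ j, cs c H t j * (bs b c k H t j - gs g c k H t j ⬝ᵥ x) = HH g b c x := by
  unfold HH
  refine Finset.sum_congr rfl fun j _ => ?_
  rw [val_t hH.ne']
  by_cases hj : j = k
  · rw [hj, cs, hck]
    simp
  · rw [if_neg hj, add_zero, cs, ← mul_assoc, div_mul_cancel₀ _ (ww_pos hH hc h0 h1 hj).ne']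

/-- the state at time `t` -/
theorem state_t (hK : LFree K) (h : ECut K f P k g b c) {H : ℝ} (hHe : H = HH g b c (toR (P k)))
    {t : ℝ} (h0 : 0 ≤ t) (h1 : t < 1)
    (hob : ∀ l m, l ≠ m → ∑ j, (gs g c k H t j ⬝ᵥ toR (f l)) * (gs g c k H t j ⬝ᵥ toR (f m)) ≤ 0) :
    ECut K f P k (gs g c k H t) (bs b c k H t) (cs c H t) := by
  have hH : 0 < H := by
    rw [hHe]
    exact HH_pos hK h
  have hw : ∀ j, 0 ≤ ww c H t j := by
    intro j
    by_cases hj : j = k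
    · rw [hj, ww_k h.c_zero]
      linarith
    · exact (ww_pos hH h.c_pos h0 h1.le hj).le
  have hcut : ∀ x ∈ K, HH g b c x ≤ H := fun x hx => by
    rw [hHe]
    exact h.cut x hx
  refine ⟨h.super, h.step, sum_gs h.sum_g t, sum_bs h.sum_b hH.ne' t,
    span_gs h.sum_g h.span hH h.c_pos h0 h1.le, ?_, ?_, ?_, ?_, ?_, ?_, hob⟩
  · intro j x hx
    have h2 : 0 ≤ bs b c k H t j - gs g c k H t j ⬝ᵥ x := by
      rw [val_t hH.ne']
      refine add_nonneg (mul_nonneg (hw j) (sub_nonneg.2 (h.sub j x hx))) ?_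
      split_ifs
      · refine mul_nonneg h0 (sub_nonneg.2 ?_)
        rw [div_le_one hH]
        exact hcut x hx
      · exact le_rfl
    linarith
  · intro j hj
    have h2 : bs b c k H t j - gs g c k H t j ⬝ᵥ toR (P j) = 0 := by
      rw [val_t hH.ne', if_neg hj, h.on j hj, sub_self, mul_zero, add_zero]
    linarith
  · have h2 : bs b c k H t k - gs g c k H t k ⬝ᵥ toR (P k) = (1 - t) * (b k - g k ⬝ᵥ toR (P k)) := by
      rw [val_t hH.ne', if_pos rfl, ww_k h.c_zero, ← hHe, div_self hH.ne', sub_self, mul_zero, add_zero]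
    have h3 := mul_pos (sub_pos.2 h1) (sub_pos.2 h.inner)
    linarith
  · rw [cs, h.c_zero, zero_div]
  · intro j hj
    exact div_pos (h.c_pos j hj) (ww_pos hH h.c_pos h0 h1.le hj)
  · intro x hx
    rw [cs_sum hH h.c_zero h.c_pos h0 h1.le, cs_sum hH h.c_zero h.c_pos h0 h1.le, ← hHe]
    exact hcut x hx

/-- the chain simplex at time one -/
theorem chain_one (hK : LFree K) (h : ECut K f P k g b c) {H : ℝ} (hHe : H = HH g b c (toR (P k)))
    (hob : ∀ l m, l ≠ m → ∑ j, (gs g c k H 1 j ⬝ᵥ toR (f l)) * (gs g c k H 1 j ⬝ᵥ toR (f m)) ≤ 0) :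
    OChain K f P (gs g c k H 1) ∧ ∀ m : Fin 3 → ℝ, ∃ a : Fin 4 → ℝ, ∑ j, a j • gs g c k H 1 j = m := by
  have hH : 0 < H := by
    rw [hHe]
    exact HH_pos hK h
  have hv : ∀ j, bs b c k H 1 j - gs g c k H 1 j ⬝ᵥ toR (P j) = 0 := by
    intro j
    rw [val_t hH.ne']
    by_cases hj : j = k
    · rw [hj, if_pos rfl, ww_k h.c_zero, ← hHe, div_self hH.ne']
      ring
    · rw [if_neg hj, h.on j hj, sub_self, mul_zero, add_zero]
  refine ⟨⟨h.super, h.step, sum_gs h.sum_g 1, ?_, ?_, hob⟩,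
    span_gs h.sum_g h.span hH h.c_pos zero_le_one le_rfl⟩
  · have h2 := sum_bs (k := k) (c := c) h.sum_b hH.ne' 1
    have h3 : ∑ j, gs g c k H 1 j ⬝ᵥ toR (P j) = ∑ j, bs b c k H 1 j :=
      Finset.sum_congr rfl fun j _ => by linarith [hv j]
    rw [h3, h2]
  · intro j x hx
    have h2 : 0 ≤ bs b c k H 1 j - gs g c k H 1 j ⬝ᵥ x := by
      rw [val_t hH.ne']
      by_cases hj : j = k
      · rw [hj, if_pos rfl, ww_k h.c_zero, sub_self, zero_mul, zero_add, one_mul]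
        refine sub_nonneg.2 ?_
        rw [div_le_one hH, hHe]
        exact h.cut x hx
      · rw [if_neg hj, add_zero]
        exact mul_nonneg (ww_pos hH h.c_pos zero_le_one le_rfl hj).le (sub_nonneg.2 (h.sub j x hx))
    linarith [hv j]

/-- **the wall reduction** -/
theorem wall_red (thmA : ∀ (K : Set (Fin 3 → ℝ)) (f P : Fin 4 → Fin 3 → ℤ) (g : Fin 4 → Fin 3 → ℝ), LFree K →
      OChain K f P g → (∀ m : Fin 3 → ℝ, ∃ a : Fin 4 → ℝ, ∑ j, a j • g j = m) → WidthLe K (2 + Real.sqrt 2))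
    (hK : LFree K) (h : ECut K f P k g b c) {H : ℝ} (hHe : H = HH g b c (toR (P k))) :
    WidthLe K (2 + Real.sqrt 2) ∨ ∃ t : ℝ, 0 ≤ t ∧ t < 1 ∧
      ECut K f P k (gs g c k H t) (bs b c k H t) (cs c H t) ∧
      (bs b c k H t k - gs g c k H t k ⬝ᵥ toR (P k) = (1 - t) * (b k - g k ⬝ᵥ toR (P k))) ∧
      ∃ l m, l ≠ m ∧ ∑ j, (gs g c k H t j ⬝ᵥ toR (f l)) * (gs g c k H t j ⬝ᵥ toR (f m)) = 0 ∧
        0 ≤ ∑ j, ((gs g c k H t j ⬝ᵥ toR (f l)) * (gs g c k H 1 j ⬝ᵥ toR (f m)) +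
          (gs g c k H t j ⬝ᵥ toR (f m)) * (gs g c k H 1 j ⬝ᵥ toR (f l))) := by
  have hH : 0 < H := by
    rw [hHe]
    exact HH_pos hK h
  by_cases hob1 : ∀ l m, l ≠ m → ∑ j, (gs g c k H 1 j ⬝ᵥ toR (f l)) * (gs g c k H 1 j ⬝ᵥ toR (f m)) ≤ 0
  · obtain ⟨h1, h2⟩ := chain_one hK h hHe hob1
    exact Or.inl (thmA K f P _ hK h1 h2)
  right
  push Not at hob1
  obtain ⟨l1, m1, hlm1, hpos1⟩ := hob1
  set a : Fin 4 → Fin 4 → ℝ := fun l j => g j ⬝ᵥ toR (f l) with ha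
  set a1 : Fin 4 → Fin 4 → ℝ := fun l j => gs g c k H 1 j ⬝ᵥ toR (f l) with ha1
  have hat : ∀ (t : ℝ) (l j : Fin 4), gs g c k H t j ⬝ᵥ toR (f l) = (1 - t) * a l j + t * a1 l j := by
    intro t l j
    rw [gs_affine H t j, gs_zero, add_dotProduct, smul_dotProduct, smul_dotProduct, smul_eq_mul, smul_eq_mul]
  set ι := {p : Fin 4 × Fin 4 // p.1 ≠ p.2}
  obtain ⟨t, ht0, ht1, hle, i, hi0, hid⟩ := first_wall (ι := ι)
    (fun p => -∑ j, a p.1.1 j * a p.1.2 j)
    (fun p => -∑ j, ((a1 p.1.1 j - a p.1.1 j) * a p.1.2 j + a p.1.1 j * (a1 p.1.2 j - a p.1.2 j)))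
    (fun p => -∑ j, (a1 p.1.1 j - a p.1.1 j) * (a1 p.1.2 j - a p.1.2 j))
    (fun p => by
      have := h.obt p.1.1 p.1.2 p.2
      simp only [ha]
      linarith)
    ⟨⟨(l1, m1), hlm1⟩, by
      simp only
      rw [← neg_add, ← neg_add, ← Finset.sum_add_distrib, ← Finset.sum_add_distrib, neg_lt_zero]
      refine lt_of_lt_of_eq hpos1 (Finset.sum_congr rfl fun j _ => ?_)
      simp only [ha1]
      ring⟩
  have hq : ∀ (p : ι) (s : ℝ), -(∑ j, (gs g c k H s j ⬝ᵥ toR (f p.1.1)) * (gs g c k H s j ⬝ᵥ toR (f p.1.2))) =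
      (-∑ j, a p.1.1 j * a p.1.2 j) +
      (-∑ j, ((a1 p.1.1 j - a p.1.1 j) * a p.1.2 j + a p.1.1 j * (a1 p.1.2 j - a p.1.2 j))) * s +
      (-∑ j, (a1 p.1.1 j - a p.1.1 j) * (a1 p.1.2 j - a p.1.2 j)) * s ^ 2 := by
    intro p s
    rw [neg_mul, neg_mul, Finset.sum_mul, Finset.sum_mul, ← neg_add, ← neg_add, ← Finset.sum_add_distrib,
      ← Finset.sum_add_distrib]
    congr 1
    refine Finset.sum_congr rfl fun j _ => ?_
    rw [hat, hat]
    ring
  have hobt : ∀ l m, l ≠ m → ∑ j, (gs g c k H t j ⬝ᵥ toR (f l)) * (gs g c k H t j ⬝ᵥ toR (f m)) ≤ 0 := by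
    intro l m hlm
    have h1 := hle ⟨(l, m), hlm⟩ t ht0 le_rfl
    have h2 := hq ⟨(l, m), hlm⟩ t
    simp only at h1 h2
    linarith
  have hst := state_t hK h hHe ht0 ht1 hobt
  refine ⟨t, ht0, ht1, hst, ?_, i.1.1, i.1.2, i.2, ?_, ?_⟩
  · rw [val_t hH.ne', if_pos rfl, ww_k h.c_zero, ← hHe, div_self hH.ne', sub_self, mul_zero, add_zero]
  · have h2 := hq i t
    linarith
  · have h2 := hq i t
    have h3 : ∑ j, (gs g c k H t j ⬝ᵥ toR (f i.1.1)) * (gs g c k H t j ⬝ᵥ toR (f i.1.2)) = 0 := by linarith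
    have h4 : ∑ j, ((gs g c k H t j ⬝ᵥ toR (f i.1.1)) * (gs g c k H 1 j ⬝ᵥ toR (f i.1.2)) +
          (gs g c k H t j ⬝ᵥ toR (f i.1.2)) * (gs g c k H 1 j ⬝ᵥ toR (f i.1.1))) =
        -((1 - t) * ((-∑ j, ((a1 i.1.1 j - a i.1.1 j) * a i.1.2 j + a i.1.1 j * (a1 i.1.2 j - a i.1.2 j))) +
          2 * (-∑ j, (a1 i.1.1 j - a i.1.1 j) * (a1 i.1.2 j - a i.1.2 j)) * t)) +
        2 * ∑ j, (gs g c k H t j ⬝ᵥ toR (f i.1.1)) * (gs g c k H t j ⬝ᵥ toR (f i.1.2)) := by
      have e1 : ∀ X Y : ℝ, -((1 - t) * (-X + 2 * -Y * t)) = (1 - t) * X + 2 * (1 - t) * t * Y := by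
        intro X Y
        ring
      rw [e1, Finset.mul_sum, Finset.mul_sum, Finset.mul_sum, ← Finset.sum_add_distrib,
        ← Finset.sum_add_distrib]
      refine Finset.sum_congr rfl fun j _ => ?_
      rw [hat t, hat t, hat 1, hat 1]
      ring
    rw [h4, h3, mul_zero, add_zero]
    have h5 := mul_nonneg (sub_nonneg.2 ht1.le) (neg_nonneg.2 hid)
    linarith

end

end Pool.Agent.Helper21.WALL
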